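import Pool.Agent.U251.PA.FinU
import Pool.Agent.U251.PA.CoarseU
import Pool.Agent.U251.PA.Grp

/-!
# C(4)-T(4) small cancellation complexes: uniform Property A, and groups acting on them

`Cx` (file `Pool/Agent/helper169_quad/CxDef.lean`) is a combinatorial 2-complex; `C4`, `T4` are the
small cancellation conditions, `SimplyConnected` and `LocallyFinite N` mean what they say, and
`graph` is the graph of the 1-skeleton.
-/

set_option autoImplicit false

universe u v w t

namespace Pool.Agent.Results.MP_db4510_al.PropertyA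

open Pool.Agent.H169Q Filter

/-- The sets of Yu's Property A for the path metric of `G`, the scale `R`, the error `ε` and the
radius `S`: finite nonempty sets `A x ⊆ B(x, S) × ℕ` such that `|A x Δ A y| < ε |A x ∩ A y|`
whenever `d(x, y) ≤ R`. -/
def YuSets {V : Type*} (G : SimpleGraph V) (R ε S : ℝ) : Prop :=
  ∃ A : V → Set (V × ℕ),
    (∀ x, (A x).Finite ∧ (A x).Nonempty ∧ ∀ p ∈ A x, (G.dist x p.1 : ℝ) ≤ S) ∧
    ∀ x y, (G.dist x y : ℝ) ≤ R →
      ((symmDiff (A x) (A y)).ncard : ℝ) < ε * ((A x ∩ A y).ncard : ℝ)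

/-- Yu's Property A for the path metric of the graph `G`. -/
def YuPropertyA {V : Type*} (G : SimpleGraph V) : Prop :=
  ∀ R ε : ℝ, 0 < R → 0 < ε → ∃ S : ℝ, 0 < S ∧ YuSets G R ε S

/-- Property A of the discrete group `Γ`: for all finite `K ⊆ Γ` and `ε > 0` there are a finite set
`F ⊆ Γ` and finite nonempty sets `A g ⊆ gF × ℕ` with `|A g Δ A h| < ε |A g ∩ A h|` whenever
`g⁻¹h ∈ K`. -/
def GroupPropertyA (Γ : Type*) [Group Γ] : Prop :=
  ∀ (K : Finset Γ) (ε : ℝ), 0 < ε → ∃ (F : Finset Γ) (A : Γ → Set (Γ × ℕ)),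
    (∀ g, (A g).Finite ∧ (A g).Nonempty ∧ ∀ p ∈ A g, g⁻¹ * p.1 ∈ F) ∧
    ∀ g h, g⁻¹ * h ∈ K → ((symmDiff (A g) (A h)).ncard : ℝ) < ε * ((A g ∩ A h).ncard : ℝ)

/-- Let `N` be given and let `X` run through all simply connected C(4)-T(4) small cancellation
complexes with at most `N` edges and at most `N` 2-cells at each vertex, with the path metric of
the 1-skeleton.

1. Every `X` is connected and has Property A.
2. The radius in Property A depends only on `N`, `R` and `ε`, not on `X`.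
3. There is a nondecreasing function `ρ → ∞`, which depends only on `N`, such that every `X` has a
map `f` into a Hilbert space with `ρ(d(x,y)) ≤ ‖f x - f y‖ ≤ √(2 d(x,y))`.
4. Every group which acts on the 1-skeleton of some `X` by graph automorphisms with finite vertex
stabilisers (no cocompactness is assumed) has Property A. -/
theorem result (N : ℕ) :
    (∀ (V : Type u) (E : Type v) (C : Type w) (X : Cx V E C), X.C4 → X.T4 →
      X.SimplyConnected → X.LocallyFinite N → X.graph.Connected ∧ YuPropertyA X.graph) ∧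
    (∃ S : ℝ → ℝ → ℝ, (∀ R ε : ℝ, 0 < R → 0 < ε → 0 < S R ε) ∧
      ∀ (V : Type u) (E : Type v) (C : Type w) (X : Cx V E C), X.C4 → X.T4 →
        X.SimplyConnected → X.LocallyFinite N →
        ∀ R ε : ℝ, 0 < R → 0 < ε → YuSets X.graph R ε (S R ε)) ∧
    (∃ ρ : ℝ → ℝ, Monotone ρ ∧ (∀ t, 0 ≤ ρ t) ∧ Tendsto ρ atTop atTop ∧
      ∀ (V : Type u) (E : Type v) (C : Type w) (X : Cx V E C), X.C4 → X.T4 →
        X.SimplyConnected → X.LocallyFinite N →
        ∃ (H : Type u) (_ : NormedAddCommGroup H) (_ : InnerProductSpace ℝ H)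
          (_ : CompleteSpace H) (f : V → H), ∀ x y : V,
            ρ (X.graph.dist x y) ≤ ‖f x - f y‖ ∧
            ‖f x - f y‖ ≤ Real.sqrt (2 * (X.graph.dist x y : ℝ))) ∧
    (∀ (V : Type u) (E : Type v) (C : Type w) (X : Cx V E C), X.C4 → X.T4 →
      X.SimplyConnected → X.LocallyFinite N →
      ∀ (Γ : Type t) [Group Γ] [MulAction Γ V],
        (∀ (g : Γ) (x y : V), X.graph.Adj x y → X.graph.Adj (g • x) (g • y)) →
        (∀ x : V, {g : Γ | g • x = x}.Finite) → GroupPropertyA Γ) := by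
  have hU := Pool.Agent.U251.PA.yu_unif.{u, v, w} N
  refine ⟨?_, ?_, ?_, ?_⟩
  · intro V E C X hC hT hS hL
    refine ⟨X.graph_conn hS, fun R ε hR hε => ?_⟩
    obtain ⟨S, hS0, h⟩ := hU R ε hR hε
    exact ⟨S, hS0, h V E C X hC hT hS hL⟩
  · choose S hS0 hSX using hU
    refine ⟨fun R ε => if h : 0 < R ∧ 0 < ε then S R ε h.1 h.2 else 0, ?_, ?_⟩
    · intro R ε hR hε
      show 0 < (if h : 0 < R ∧ 0 < ε then S R ε h.1 h.2 else 0)
      rw [dif_pos ⟨hR, hε⟩]
      exact hS0 R ε hR hε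
    · intro V E C X hC hT hS hL R ε hR hε
      show YuSets X.graph R ε (if h : 0 < R ∧ 0 < ε then S R ε h.1 h.2 else 0)
      rw [dif_pos ⟨hR, hε⟩]
      exact hSX R ε hR hε V E C X hC hT hS hL
  · obtain ⟨ρ, h1, h2, h3, h4⟩ := Pool.Agent.U251.PA.coarse_unif.{u, v, w} N
    exact ⟨ρ, h1, h2, h3, h4⟩
  · intro V E C X hC hT hS hL Γ _ _ hact hst
    exact Pool.Agent.U251.PA.group_c4t4 X hC hT hS N hL hact hst

end Pool.Agent.Results.MP_db4510_al.PropertyA
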